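import Pool.Agent.Helper36.Sidon.Big

set_option autoImplicit false

namespace Pool.Agent.Results.MP_aa493b_co.ConstantAboveFortyThree

theorem aux (s a C : ℝ) (h1 : a ≤ s + C) (h2 : 8388584 ≤ a) (h3 : s < 8388540.8506) :
    (43.149 : ℝ) < C := by
  norm_num at h3 ⊢
  linarith

/-- Every constant `C` for which the bound `|A| ≤ √n + C` of Q1 holds (for all `n` and all Sidon
sets `A` of positive integers up to `n`) exceeds `43.149`. -/
theorem result : ∀ C : ℝ, (∀ n : ℕ, ∀ A : Finset ℕ, A ⊆ Finset.Icc 1 n →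
      (∀ a ∈ A, ∀ b ∈ A, ∀ c ∈ A, ∀ d ∈ A,
        a + b = c + d → (a = c ∧ b = d) ∨ (a = d ∧ b = c)) →
      (A.card : ℝ) ≤ Real.sqrt n + C) → (43.149 : ℝ) < C := by
  intro C h
  obtain ⟨A, hA1, hA2, hA3⟩ := Pool.Agent.Helper36.Sidon.big_sidon
  have h1 := h _ A hA1 hA2
  have h2 : (8388584 : ℝ) ≤ (A.card : ℝ) := by exact_mod_cast hA3
  have h3 : Real.sqrt ((70367617597632 : ℕ) : ℝ) < 8388540.8506 := by
    rw [Real.sqrt_lt' (by norm_num)]
    norm_num
  exact aux _ _ _ h1 h2 h3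

end Pool.Agent.Results.MP_aa493b_co.ConstantAboveFortyThree
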