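import Pool.Agent.Helper23.SU.Count

set_option autoImplicit false

/-!
Upper bound for finite Sidon sets with leading constant 2 * sqrt 2 / 3 = 0.9428... of the fourth root.
-/

namespace Pool.Agent.Results.MP_aa493b_co.UpperTwoRootTwoThirds

open Finset Filter Topology

theorem final_real (X L m E : ℝ) (hX : 4 ≤ X) (hL1 : Real.sqrt 2 * X ^ 3 ≤ L)
    (hL2 : L ≤ Real.sqrt 2 * X ^ 3 + 1) (hE : E ≤ 1) (hm : 1 ≤ m)
    (h : m ^ 2 ≤ (X ^ 4 + 2 * L / 3 + E) * (1 + (m - 1) * (4 / (3 * L)))) :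
    m ≤ X ^ 2 + (2 * Real.sqrt 2 / 3) * X + 1 / 2 := by
  have hs2 : Real.sqrt 2 ^ 2 = 2 := Real.sq_sqrt (by norm_num)
  have hs0 : 0 < Real.sqrt 2 := Real.sqrt_pos.mpr (by norm_num)
  set c : ℝ := 2 * Real.sqrt 2 / 3 with hc
  have hc2 : c ^ 2 = 8 / 9 := by rw [hc]; linear_combination (4 / 9) * hs2
  have hc0 : 0 < c := by rw [hc]; positivity
  have hc1 : c < 1 := by nlinarith
  have hX0 : 0 < X := by linarith
  have hX3 : 0 < X ^ 3 := by positivity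
  have hL0 : 0 < L := lt_of_lt_of_le (by positivity) hL1
  have h1 : 4 / (3 * L) ≤ c / X ^ 3 := by
    rw [div_le_div_iff₀ (by positivity) hX3]
    have : c * (3 * L) = 2 * Real.sqrt 2 * L := by rw [hc]; ring
    rw [this]
    have h2 : 2 * Real.sqrt 2 * (Real.sqrt 2 * X ^ 3) ≤ 2 * Real.sqrt 2 * L :=
      mul_le_mul_of_nonneg_left hL1 (by positivity)
    have h3 : 2 * Real.sqrt 2 * (Real.sqrt 2 * X ^ 3) = 4 * X ^ 3 := by
      linear_combination 2 * X ^ 3 * hs2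
    linarith
  have h2 : X ^ 4 + 2 * L / 3 + E ≤ X ^ 4 + c * X ^ 3 + 2 := by
    have : 2 * L / 3 ≤ c * X ^ 3 + 2 / 3 := by rw [hc]; linarith
    linarith
  have h3 : m ^ 2 ≤ (X ^ 4 + c * X ^ 3 + 2) * (1 + (m - 1) * (c / X ^ 3)) := by
    refine h.trans (mul_le_mul h2 ?_ ?_ (by positivity))
    · have := mul_le_mul_of_nonneg_left h1 (sub_nonneg.mpr hm)
      linarith
    · have : 0 ≤ (m - 1) * (4 / (3 * L)) := mul_nonneg (sub_nonneg.mpr hm) (by positivity)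
      linarith
  have h4 : m ^ 2 * X ^ 3 ≤ (X ^ 4 + c * X ^ 3 + 2) * (X ^ 3 + (m - 1) * c) := by
    have := mul_le_mul_of_nonneg_right h3 hX3.le
    have e : (X ^ 4 + c * X ^ 3 + 2) * (1 + (m - 1) * (c / X ^ 3)) * X ^ 3 =
        (X ^ 4 + c * X ^ 3 + 2) * (X ^ 3 + (m - 1) * c) := by
      field_simp
    rw [e] at this
    exact this
  by_contra hcon
  push Not at hcon
  obtain ⟨r, hr, hmr⟩ : ∃ r : ℝ, 0 < r ∧ m = X ^ 2 + c * X + 1 / 2 + r :=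
    ⟨m - (X ^ 2 + c * X + 1 / 2), by linarith, by ring⟩
  have hi : 0 < (X ^ 2 + c * X + 1 / 2) ^ 2 * X ^ 3 -
      (X ^ 4 + c * X ^ 3 + 2) * (X ^ 3 + ((X ^ 2 + c * X + 1 / 2) - 1) * c) := by
    have e : (X ^ 2 + c * X + 1 / 2) ^ 2 * X ^ 3 -
      (X ^ 4 + c * X ^ 3 + 2) * (X ^ 3 + ((X ^ 2 + c * X + 1 / 2) - 1) * c) =
      (1 / 9) * X ^ 5 + c * (11 / 18) * X ^ 4 - (47 / 36) * X ^ 3 - 2 * c * X ^ 2 - (16 / 9) * X + c := by
      linear_combination (-X ^ 5 - c * X ^ 4 + (1 / 2) * X ^ 3 - 2 * X) * hc2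
    rw [e]
    have hX2 : 16 ≤ X ^ 2 := by nlinarith
    have t1 : 16 * X ^ 3 ≤ X ^ 5 := by
      have : X ^ 5 = X ^ 2 * X ^ 3 := by ring
      rw [this]; exact mul_le_mul_of_nonneg_right hX2 hX3.le
    have t2 : 16 * X ^ 2 ≤ X ^ 4 := by
      have : X ^ 4 = X ^ 2 * X ^ 2 := by ring
      rw [this]; exact mul_le_mul_of_nonneg_right hX2 (by positivity)
    have t3 : 16 * X ≤ X ^ 3 := by
      have : X ^ 3 = X ^ 2 * X := by ring
      rw [this]; exact mul_le_mul_of_nonneg_right hX2 hX0.le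
    have t4 : c * (16 * X ^ 2) ≤ c * X ^ 4 := mul_le_mul_of_nonneg_left t2 hc0.le
    nlinarith
  have hii : 0 ≤ 2 * (X ^ 2 + c * X + 1 / 2) * X ^ 3 - (X ^ 4 + c * X ^ 3 + 2) * c := by
    have e : 2 * (X ^ 2 + c * X + 1 / 2) * X ^ 3 - (X ^ 4 + c * X ^ 3 + 2) * c =
        2 * X ^ 5 + c * X ^ 4 + (1 / 9) * X ^ 3 - 2 * c := by
      linear_combination (-X ^ 3) * hc2
    rw [e]
    have : (1 : ℝ) ≤ X ^ 5 := one_le_pow₀ (by linarith)
    have : 0 ≤ c * X ^ 4 := by positivity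
    nlinarith
  rw [hmr] at h4
  nlinarith [mul_nonneg hii hr.le, mul_pos (mul_pos hr hr) hX3]

theorem tail_small : ∃ X₁ : ℝ, ∀ X : ℝ, X₁ ≤ X → 8 * X ^ 9 * Real.exp (1 / 2 - X / 4) ≤ 1 := by
  have h := Real.tendsto_pow_mul_exp_neg_atTop_nhds_zero 9
  have h1 : Tendsto (fun X : ℝ => X / 4) atTop atTop := tendsto_id.atTop_div_const (by norm_num)
  have h2 := h.comp h1
  have h3 : Tendsto (fun X : ℝ => (8 * 4 ^ 9 * Real.exp (1 / 2)) * ((X / 4) ^ 9 * Real.exp (-(X / 4))))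
      atTop (𝓝 ((8 * 4 ^ 9 * Real.exp (1 / 2)) * 0)) := h2.const_mul _
  rw [mul_zero] at h3
  have h4 := h3.eventually (ge_mem_nhds (show (0 : ℝ) < 1 by norm_num))
  obtain ⟨X₁, hX₁⟩ := eventually_atTop.mp h4
  refine ⟨X₁, fun X hX => ?_⟩
  have h5 := hX₁ X hX
  have e : 8 * X ^ 9 * Real.exp (1 / 2 - X / 4) =
      (8 * 4 ^ 9 * Real.exp (1 / 2)) * ((X / 4) ^ 9 * Real.exp (-(X / 4))) := by
    rw [sub_eq_add_neg, Real.exp_add]; ring
  rw [e]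
  exact h5

/-- For all large n, every Sidon subset of the integers from 1 to n has at most
sqrt n + (2 sqrt 2 / 3) n^(1/4) + 1/2 elements. -/
theorem result :
    ∃ N₀ : ℕ, ∀ n : ℕ, N₀ ≤ n → ∀ A : Finset ℕ, A ⊆ Finset.Icc 1 n →
      (∀ a ∈ A, ∀ b ∈ A, ∀ c ∈ A, ∀ d ∈ A,
        a + b = c + d → (a = c ∧ b = d) ∨ (a = d ∧ b = c)) →
      (A.card : ℝ) ≤ Real.sqrt n + (2 * Real.sqrt 2 / 3) * (n : ℝ) ^ (1 / 4 : ℝ) + 1 / 2 := by
  obtain ⟨X₁, hX₁⟩ := tail_small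
  have hT : Tendsto (fun n : ℕ => (n : ℝ) ^ (1 / 4 : ℝ)) atTop atTop :=
    (tendsto_rpow_atTop (by norm_num)).comp tendsto_natCast_atTop_atTop
  have hev := (hT.eventually (eventually_ge_atTop (max X₁ 4)))
  obtain ⟨N₀, hN₀⟩ := eventually_atTop.mp hev
  refine ⟨N₀, fun n hn A hA hS => ?_⟩
  have hXmax := hN₀ n hn
  set X : ℝ := (n : ℝ) ^ (1 / 4 : ℝ) with hXdef
  have hX1 : X₁ ≤ X := (le_max_left _ _).trans hXmax
  have hX4 : 4 ≤ X := (le_max_right _ _).trans hXmax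
  have hX0 : 0 < X := by linarith
  have hn4 : X ^ 4 = n := by
    rw [hXdef, ← Real.rpow_natCast, ← Real.rpow_mul (Nat.cast_nonneg n)]
    norm_num
  have hsq : Real.sqrt n = X ^ 2 := by
    rw [← hn4]
    have : X ^ 4 = (X ^ 2) ^ 2 := by ring
    rw [this, Real.sqrt_sq (by positivity)]
  rw [hsq]
  rcases A.eq_empty_or_nonempty with hA0 | hne
  · rw [hA0]
    simp only [Finset.card_empty, Nat.cast_zero]
    positivity
  have hs0 : 0 < Real.sqrt 2 := Real.sqrt_pos.mpr (by norm_num)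
  have hs2 : Real.sqrt 2 ^ 2 = 2 := Real.sq_sqrt (by norm_num)
  have hs15 : Real.sqrt 2 ≤ 3 / 2 := by nlinarith
  set L : ℕ := ⌈Real.sqrt 2 * X ^ 3⌉₊ with hLdef
  have hX3 : 0 < X ^ 3 := by positivity
  have hX364 : 64 ≤ X ^ 3 := by nlinarith [mul_pos hX0 hX0]
  have hLlow : Real.sqrt 2 * X ^ 3 ≤ (L : ℝ) := Nat.le_ceil _
  have hLup : (L : ℝ) ≤ Real.sqrt 2 * X ^ 3 + 1 := (Nat.ceil_lt_add_one (by positivity)).le
  have hLpos' : (0 : ℝ) < L := lt_of_lt_of_le (by positivity) hLlow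
  have hLpos : 0 < L := by exact_mod_cast hLpos'
  have hL2 : (L : ℝ) ≤ 2 * X ^ 3 := by nlinarith
  have hLn' : (L : ℝ) ≤ n := by
    rw [← hn4]
    have : X ^ 4 = X * X ^ 3 := by ring
    rw [this]
    nlinarith
  have hLn : L ≤ n := by exact_mod_cast hLn'
  have hmain := Pool.Agent.Helper23.SU.main_ineq hLpos hLn A hA hS hne
  -- the error term
  have hE : (L : ℝ) ^ 3 * Real.sqrt ((1 - 1 / (L : ℝ)) ^ (n - L)) ≤ 1 := by
    have hL1 : (1 : ℝ) ≤ L := by exact_mod_cast hLpos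
    have hq0 : 0 ≤ 1 - 1 / (L : ℝ) := by
      rw [sub_nonneg, div_le_one hLpos']; exact hL1
    have h1 : 1 - 1 / (L : ℝ) ≤ Real.exp (-(1 / (L : ℝ))) := by
      have := Real.add_one_le_exp (-(1 / (L : ℝ)))
      linarith
    have h2 : (1 - 1 / (L : ℝ)) ^ (n - L) ≤ Real.exp (-(1 / (L : ℝ))) ^ (n - L) :=
      pow_le_pow_left₀ hq0 h1 _
    have h3 : Real.exp (-(1 / (L : ℝ))) ^ (n - L) = Real.exp (-(((n : ℝ) - L) / L)) := by
      rw [← Real.exp_nat_mul, Nat.cast_sub hLn]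
      congr 1
      ring
    have h4 : Real.sqrt ((1 - 1 / (L : ℝ)) ^ (n - L)) ≤ Real.exp (-(((n : ℝ) - L) / L) / 2) := by
      rw [Real.exp_half]
      apply Real.sqrt_le_sqrt
      rw [← h3]
      exact h2
    have h5 : -(((n : ℝ) - L) / L) / 2 ≤ 1 / 2 - X / 4 := by
      have : X / 2 ≤ (n : ℝ) / L := by
        rw [le_div_iff₀ hLpos', ← hn4]
        have : X ^ 4 = X / 2 * (2 * X ^ 3) := by ring
        rw [this]
        exact mul_le_mul_of_nonneg_left hL2 (by positivity)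
      have e : ((n : ℝ) - L) / L = (n : ℝ) / L - 1 := by field_simp
      rw [e]
      linarith
    have h6 : Real.sqrt ((1 - 1 / (L : ℝ)) ^ (n - L)) ≤ Real.exp (1 / 2 - X / 4) :=
      h4.trans (Real.exp_le_exp.mpr h5)
    have h7 : (L : ℝ) ^ 3 ≤ 8 * X ^ 9 := by
      calc (L : ℝ) ^ 3 ≤ (2 * X ^ 3) ^ 3 := pow_le_pow_left₀ hLpos'.le hL2 3
        _ = 8 * X ^ 9 := by ring
    calc _ ≤ (8 * X ^ 9) * Real.exp (1 / 2 - X / 4) :=
          mul_le_mul h7 h6 (Real.sqrt_nonneg _) (by positivity)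
      _ ≤ 1 := hX₁ X hX1
  rw [← hn4] at hmain
  have hm1 : (1 : ℝ) ≤ A.card := by exact_mod_cast hne.card_pos
  exact final_real X L A.card _ hX4 hLlow hLup hE hm1 hmain

end Pool.Agent.Results.MP_aa493b_co.UpperTwoRootTwoThirds
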